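import Pool.Agent.MWBN.Stmts
import Pool.Agent.Helper30_MWS.EDV

/-!
# MWBN, row EDN (helper4; after helper30, MWS.EDV)
-/

set_option autoImplicit false

namespace Pool.Agent.MWBN.H4

open Pool.Agent.Helper14_MV Pool.Agent.Helper2_MV Pool.Agent.MVO Pool.Agent.MWL Pool.Agent.MWS
open Pool.Agent.MWS.H30E

theorem smn_of_eqt {n k : ℕ} {B B' : ℕ → List ℕ} (hB : OkB k B) (hB' : OkB k B')
    (h : MWHP.EqT n k B B') : SmN n k B B' := by
  intro j hj c
  by_cases hc : NS k c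
  · have h1 := h c hc j hj
    unfold ty at h1
    rw [← List.count_pos_iff, ← List.count_pos_iff]
    rcases h1 with h1 | ⟨h1, h2, h3⟩
    · rw [h1]
      exact ⟨Iff.rfl, Nat.ModEq.refl _⟩
    · exact ⟨by omega, h3⟩
  · have h1 : c ∉ B j := fun h1 => hc (hB.ok j hj c h1)
    have h2 : c ∉ B' j := fun h1 => hc (hB'.ok j hj c h1)
    refine ⟨iff_of_false h1 h2, ?_⟩
    rw [List.count_eq_zero.2 h1, List.count_eq_zero.2 h2]

theorem smn_symm {n k : ℕ} {B B' : ℕ → List ℕ} (h : SmN n k B B') : SmN n k B' B :=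
  fun j hj c => ⟨(h j hj c).1.symm, (h j hj c).2.symm⟩

theorem smn_ty {n k : ℕ} {B B' : ℕ → List ℕ} (h : SmN n k B B') (c : ℕ) :
    ∀ j ≤ k, (ty B c j = 0 ↔ ty B' c j = 0) := by
  intro j hj
  unfold ty
  rw [List.count_eq_zero, List.count_eq_zero, (h j hj c).1]

theorem sw_smn {n k : ℕ} {B B' : ℕ → List ℕ} (h : SmN n k B B') : SmN n k (sw B) (sw B') := by
  intro j hj c
  obtain ⟨d, rfl⟩ : ∃ d, c = Equiv.swap 0 1 d := ⟨Equiv.swap 0 1 c, by simp⟩
  have h1 : ∀ C : ℕ → List ℕ, (sw C j).count (Equiv.swap 0 1 d) = (C j).count d := by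
    intro C
    exact congrFun (sw_ty C d) j
  rw [← List.count_pos_iff, ← List.count_pos_iff, h1, h1, List.count_pos_iff, List.count_pos_iff]
  exact h j hj d

theorem core (hTW : TwnStmt) {n : ℕ} {V : ℕ → (ℕ → ℕ) → (ℕ → ℕ) → ℕ → Prop} {β : FIC}
    (hV : VisOk V) (hC : ClVn n V β) {k : ℕ} {B B' : ℕ → List ℕ} (hB : OkB k B) (hB' : OkB k B')
    (h01 : Two01 k B) (h01' : Two01 k B') (hS : SmN n k B B') {θ : FIC} (hθ : β ≤ θ)
    (hr : RR θ (asm k B) (asm k B')) (i : ℕ) (hv : V k (ty B 0) (ty B 1) i)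
    (hd : ¬ (Bef (B i) 0 1 ↔ Bef (B' i) 0 1)) : TE θ k (ty B 0) (ty B 1) i := by
  by_cases hb : Bef (B i) 0 1
  · exact hTW n V β θ hV hC hθ k B B' hB hB' h01 h01' hS i hv hr hb
      (fun h => hd (iff_of_true hb h))
  · have hb' : Bef (B' i) 0 1 := by
      by_contra h
      exact hd (iff_of_false hb h)
    have hs' : SmN n k B' B := smn_symm hS
    have e1 : ∀ j ≤ k, (ty B 0 j = 0 ↔ ty B' 0 j = 0) ∧ (ty B 1 j = 0 ↔ ty B' 1 j = 0) :=
      fun j hj => ⟨smn_ty hS 0 j hj, smn_ty hS 1 j hj⟩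
    have e2 : ∀ j ≤ k, (ty B' 0 j = 0 ↔ ty B 0 j = 0) ∧ (ty B' 1 j = 0 ↔ ty B 1 j = 0) :=
      fun j hj => ⟨smn_ty hs' 0 j hj, smn_ty hs' 1 j hj⟩
    exact te_ext e2 (hTW n V β θ hV hC hθ k B' B hB' hB h01' h01 hs' i
      (hV.ext k _ _ _ _ i e1 hv) hr.symm hb' hb)

theorem claim (hTE : TenStmt) (hJP : JpnStmt) {n : ℕ} {V : ℕ → (ℕ → ℕ) → (ℕ → ℕ) → ℕ → Prop}
    {β : FIC} (hV : VisOk V) (hC : ClVn n V β) (k : ℕ) (a b : ℕ → ℕ) (d : ℕ → Prop) :
    ∃ L : List (List ℕ × List ℕ), (∀ e ∈ L, JPp β e) ∧ ∀ θ : FIC, β ≤ θ →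
      ((∀ e ∈ L, RR θ e.1 e.2) ↔ ∀ i, V k a b i → d i → TE θ k a b i) := by
  by_cases h : ∃ i, V k a b i ∧ d i
  · obtain ⟨i, hv, hd⟩ := h
    refine ⟨[edg k a b (fun _ => false) i], ?_, ?_⟩
    · intro e he
      rw [List.mem_singleton] at he
      rw [he]
      exact hJP n V β hV hC k a b _ i hv
    · intro θ hθ
      constructor
      · intro h1 i' hv' _
        have := hV.uni k a b i' i hv' hv
        rw [this]
        exact hTE n V β θ hV hC hθ k a b i hv _ (h1 _ (List.mem_singleton.2 rfl))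
      · intro h1 e he
        rw [List.mem_singleton] at he
        rw [he]
        exact h1 i hv hd _
  · refine ⟨[], by simp, fun θ _ => ⟨fun _ i hv hd => absurd ⟨i, hv, hd⟩ h, by simp⟩⟩

theorem edn (hN : NfnStmt) (hTE : TenStmt) (hTW : TwnStmt) (hJP : JpnStmt) : EdnStmt := by
  intro n V β hV hC k B B' hB hB' h01 h01' hShp
  have hS := smn_of_eqt hB hB' hShp
  obtain ⟨L1, hL1, hE1⟩ := claim hTE hJP hV hC k (ty B 0) (ty B 1)
    (fun i => ¬ (Bef (B i) 0 1 ↔ Bef (B' i) 0 1))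
  obtain ⟨L2, hL2, hE2⟩ := claim hTE hJP hV hC k (ty B 1) (ty B 0)
    (fun i => ¬ (Bef (B i) 1 0 ↔ Bef (B' i) 1 0))
  refine ⟨L1 ++ L2, ?_, ?_⟩
  · intro e he
    rcases List.mem_append.1 he with h | h
    · exact hL1 e h
    · exact hL2 e h
  · intro θ hθ _
    have hsplit : (∀ e ∈ L1 ++ L2, RR θ e.1 e.2) ↔
        ((∀ e ∈ L1, RR θ e.1 e.2) ∧ (∀ e ∈ L2, RR θ e.1 e.2)) := by
      constructor
      · intro h
        exact ⟨fun e he => h e (List.mem_append.2 (Or.inl he)),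
          fun e he => h e (List.mem_append.2 (Or.inr he))⟩
      · rintro ⟨h1, h2⟩ e he
        rcases List.mem_append.1 he with h | h
        · exact h1 e h
        · exact h2 e h
    rw [hsplit, hE1 θ hθ, hE2 θ hθ]
    constructor
    · intro hr
      refine ⟨fun i hv hd => core hTW hV hC hB hB' h01 h01' hS hθ hr i hv hd, ?_⟩
      intro i hv hd
      have h3 := core hTW hV hC (sw_ok hB h01) (sw_ok hB' h01') (sw_two h01) (sw_two h01')
        (sw_smn hS) hθ (sw_rr hB.ok hB'.ok hr) i (by rw [sw_ty0, sw_ty1]; exact hv)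
        (by rw [sw_bef, sw_bef]; exact hd)
      rw [sw_ty0, sw_ty1] at h3
      exact h3
    · rintro ⟨h1, h2⟩
      refine hN n V β θ hV hC hθ k B B' hB hB' hS ?_
      intro x y i hxy hv hd
      obtain ⟨hik, hx, hy⟩ := hV.mem k _ _ i hv
      have hx' : x ∈ B i := List.count_pos_iff.1 (Nat.pos_of_ne_zero hx)
      have hy' : y ∈ B i := List.count_pos_iff.1 (Nat.pos_of_ne_zero hy)
      rcases h01 i hik x hx' with rfl | rfl
      · rcases h01 i hik y hy' with rfl | rfl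
        · exact absurd rfl hxy
        · exact h1 i hv hd
      · rcases h01 i hik y hy' with rfl | rfl
        · exact h2 i hv hd
        · exact absurd rfl hxy

end Pool.Agent.MWBN.H4
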